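import Mathlib
import Pool.Agent.Lib.MP_b197b4_ntBW.XL

/-!
# MP_b197b4_nt: Bloch's group `V(Y)` is torsion

Let `X` be a regular projective variety over a field `k` which is algebraic over a finite field (for
example a finite field), and `X → C` a morphism onto a regular curve with function field `K₀`, such
that `K₀` is algebraically closed in the function field `F` of `X`. Let `Y` be the generic fibre, a
regular projective variety over `K₀` of dimension `d ≥ 1`. The group

  `SK_1(Y) = coker (⊕_{S curve on Y} K_2(κ(S)) → ⊕_{P closed point of Y} κ(P)ˣ) = H ^ d (Y, K_{d+1})`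

has the norm map to `K₀ˣ`, and `V(Y)` is its kernel. The theorem says that `V(Y)` is torsion, for every
`Y` of every dimension `d ≥ 1`. If `k` is finite, `K₀` is a global field.

`X` is given by homogeneous coordinates `x 0, ..., x n`, nonzero elements of `F`: its affine charts are
the rings `k[x j / x i]`. A point of the scheme `X` is given by its local ring, a local subring of
`F`; the points of dimension `e` are the generic points of the closed subvarieties of dimension `e`.
The points of `Y` are the points of `X` whose local rings contain `K₀`; the points of `X` of dimension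
`e + 1` which are on `Y` are the points of dimension `e` of `Y`. `K_2(κ(S))` is generated by symbols
`{f, g}` (Matsumoto), so the image of the first map is generated by the boundaries of pairs `f, g` of
functions on curves `S` of `Y`.
-/

set_option autoImplicit false

namespace Pool.Agent.Results.MP_b197b4_nt.BlochKernel

open IsLocalRing

section Symbols

variable {K : Type} [Field K]

/-- The residue field of the valuation ring `V`. -/
def ResV (V : ValuationSubring K) : Type := ResidueField V

noncomputable instance (V : ValuationSubring K) : Field (ResV V) := ResidueField.field V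

/-- `x = π ^ n u`, where `π` generates the maximal ideal of `V` and `u` is a unit of `V`. -/
def HasOrd (V : ValuationSubring K) (x : K) (n : ℤ) : Prop :=
  ∃ (π : V) (u : Vˣ), Irreducible π ∧ x = (π : K) ^ n * ((u : V) : K)

open Classical in
/-- The order of `x` with respect to the discrete valuation ring `V`. -/
noncomputable def ord (V : ValuationSubring K) (x : K) : ℤ :=
  if h : ∃ n, HasOrd V x n then h.choose else 0

open Classical in
/-- The residue class of `x ∈ V` (`0` if `x ∉ V`). -/
noncomputable def res (V : ValuationSubring K) (x : K) : ResV V :=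
  if h : x ∈ V then residue V ⟨x, h⟩ else 0

/-- The tame symbol `(-1) ^ (v(f) v(g)) f ^ v(g) / g ^ v(f)` of `f` and `g` at `V`, an element of the
residue field of `V`. -/
noncomputable def tame (V : ValuationSubring K) (f g : K) : ResV V :=
  res V ((-1) ^ (ord V f * ord V g) * f ^ ord V g / g ^ ord V f)

/-- The norm of the field extension given by the homomorphism `φ`. -/
noncomputable def normOf {L : Type} [Field L] (φ : K →+* L) (c : L) : K :=
  @Algebra.norm K L _ _ φ.toAlgebra c

end Symbols

section Varieties

variable {F : Type} [Field F]

/-- The affine chart `x i ≠ 0`: the `k`-algebra generated by the quotients `x j / x i`. -/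
def chart (k : Type) {F : Type} [Field k] [Field F] [Algebra k F] {n : ℕ} (x : Fin (n + 1) → F)
    (i : Fin (n + 1)) : Subalgebra k F :=
  Algebra.adjoin k (Set.range fun j => x j / x i)

/-- `x 0, ..., x n` are homogeneous coordinates of a regular projective variety of dimension `d` over
`k` with function field `F`: the charts are regular rings with the field of fractions `F`, and all
their maximal ideals have the height `d`. -/
structure Variety (k : Type) {F : Type} [Field k] [Field F] [Algebra k F] {n : ℕ} (d : ℕ)
    (x : Fin (n + 1) → F) : Prop where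
  ne : ∀ i, x i ≠ 0
  frac : ∀ i, IsFractionRing (chart k x i) F
  regular : ∀ i, IsRegularRing (chart k x i)
  height : ∀ i, ∀ m : Ideal (chart k x i), m.IsMaximal → m.height = d

/-- The points of dimension `e` of the variety: `O` is the local ring of a chart `A` at a prime ideal
`P` such that `A / P` has the dimension `e`. -/
def Points (k : Type) {F : Type} [Field k] [Field F] [Algebra k F] {n : ℕ}
    (x : Fin (n + 1) → F) (e : ℕ) : Set (LocalSubring F) :=
  {O | ∃ (i : Fin (n + 1)) (P : Ideal (chart k x i).toSubring) (_ : P.IsPrime),
    ringKrullDim ((chart k x i).toSubring ⧸ P) = e ∧ O = LocalSubring.ofPrime _ P}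

/-- The variety `X` of dimension `d + 1` with the coordinates `x` is fibred over the regular projective
curve `C` with function field `K₀`: `K₀` is finitely generated and of transcendence degree one
over `k`, and algebraically closed in `F`; `X → C` is a morphism, that is: for every closed point
`O` of `X` the intersection of `O` and `K₀` is a valuation ring. -/
structure Fibration (k : Type) {F : Type} [Field k] [Field F] [Algebra k F] {n : ℕ} (d : ℕ)
    (x : Fin (n + 1) → F) (K₀ : IntermediateField k F) : Prop where
  var : Variety k (d + 1) x
  fg : (⊤ : IntermediateField k K₀).FG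
  trdeg : Algebra.trdeg k K₀ = 1
  closed : ∀ u : F, IsAlgebraic K₀ u → u ∈ K₀
  mor : ∀ O ∈ Points k x 0, ∀ t ∈ K₀, t ∈ O.toSubring ∨ t⁻¹ ∈ O.toSubring

/-- The points of dimension `e` of the generic fibre `Y`: the points of dimension `e + 1` of `X` with
a local ring which contains `K₀`. -/
def PointsY {k : Type} {F : Type} [Field k] [Field F] [Algebra k F] {n : ℕ}
    (x : Fin (n + 1) → F) (K₀ : IntermediateField k F) (e : ℕ) : Set (LocalSubring F) :=
  {P | P ∈ Points k x (e + 1) ∧ ∀ t ∈ K₀, t ∈ P.toSubring}

/-- The residue field of the point `O`, that is the function field of the closed subvariety with the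
generic point `O`. -/
def Kap (O : LocalSubring F) : Type := ResidueField O.toSubring

noncomputable instance (O : LocalSubring F) : Field (Kap O) := ResidueField.field O.toSubring

/-- The values at `O` of the functions which are regular at `O`. -/
noncomputable def value (O : LocalSubring F) : O.toSubring →+* Kap O := residue O.toSubring

/-- `P ⊆ S` is the centre of the valuation ring `V` of the function field of `S`: `V` contains the
local ring of `S` at `P`, and the units of `P` are the elements which are units of `V`. -/
def Centre (P S : LocalSubring F) (V : ValuationSubring (Kap S)) : Prop :=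
  P.toSubring ≤ S.toSubring ∧ ∀ (y : F) (hP : y ∈ P.toSubring) (hS : y ∈ S.toSubring),
    value S ⟨y, hS⟩ ∈ V ∧
      (IsUnit (⟨y, hP⟩ : P.toSubring) ↔ V.valuation (value S ⟨y, hS⟩) = 1)

/-- `φ` is the natural embedding of the residue field of the centre `P` in the residue field of `V`. -/
def Natural (P S : LocalSubring F) (V : ValuationSubring (Kap S)) (φ : Kap P →+* ResV V) : Prop :=
  ∀ (y : F) (hP : y ∈ P.toSubring) (hS : y ∈ S.toSubring),
    φ (value P ⟨y, hP⟩) = res V (value S ⟨y, hS⟩)

open Classical in
/-- The norm from the residue field of `V` to the residue field of its centre `P` (with respect to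
the natural embedding). -/
noncomputable def nrm (P S : LocalSubring F) (V : ValuationSubring (Kap S)) (c : ResV V) : Kap P :=
  if h : ∃ φ, Natural P S V φ then normOf h.choose c else 1

/-- The component, at the closed point `P` of `Y`, of the boundary of the symbol `{f, g}` of two
functions on the curve `S` of `Y` (`q = (S, f, g)`): the product of the norms of the tame symbols of
`f` and `g` at all the discrete valuation rings of `κ(S)` with the centre `P`. -/
noncomputable def boundary (q : Σ S : LocalSubring F, Kap S × Kap S) (P : LocalSubring F) :
    Kap P :=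
  ∏ᶠ (V : ValuationSubring (Kap q.1)) (_ : IsDiscreteValuationRing V ∧ Centre P q.1 V),
    nrm P q.1 V (tame V q.2.1 q.2.2)

/-- The inclusion of `K₀` in the residue field of the point `P` of `Y`. -/
noncomputable def incl {k : Type} [Field k] [Algebra k F] (K₀ : IntermediateField k F)
    (P : LocalSubring F) (h : ∀ t ∈ K₀, t ∈ P.toSubring) : K₀ →+* Kap P :=
  (value P).comp ((algebraMap K₀ F).codRestrict P.toSubring fun t => h t t.2)

open Classical in
/-- The norm from the residue field of the closed point `P` of `Y` to `K₀`. -/
noncomputable def norm {k : Type} [Field k] [Algebra k F] (K₀ : IntermediateField k F)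
    (P : LocalSubring F) (u : Kap P) : K₀ :=
  if h : ∀ t ∈ K₀, t ∈ P.toSubring then normOf (incl K₀ P h) u else 1

end Varieties

section Compare

open Pool.Agent.Lib

theorem boundary_eq {F : Type} [Field F] (q : Σ S : LocalSubring F, Kap S × Kap S)
    (P : LocalSubring F) : MP_b197b4_ntA.bd q P = boundary q P := rfl

variable {k : Type} {F : Type} [Field k] [Field F] [Algebra k F] {n : ℕ} {x : Fin (n + 1) → F}
  {K₀ : IntermediateField k F}

theorem norm_eq (P : LocalSubring F) (u : Kap P) : MP_b197b4_ntBW.nrmX K₀ P u = norm K₀ P u := rfl

theorem var_of {d : ℕ} (h : Variety k d x) : MP_b197b4_ntA.Var k d x where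
  ne := h.ne
  frac := h.frac
  regular := h.regular
  height := h.height

theorem fib_of {d : ℕ} (h : Fibration k d x K₀) : MP_b197b4_ntBW.FibX k (d + 1) x K₀ where
  var := var_of h.var
  base := ⟨h.fg, h.trdeg⟩
  closed := h.closed
  mor := h.mor

end Compare

/-- **Theorem.** Let `Y` be the generic fibre, of dimension `d ≥ 1`, of a regular projective variety
`X` over a curve, over a field `k` which is algebraic over a finite field. Then `V(Y)` is torsion:
if `a P ∈ κ(P)ˣ`, for the closed points `P` of `Y`, are almost all equal to `1` and the product of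
their norms to `K₀` is `1`, then a power of `a` is a finite product of boundaries of symbols on curves
of `Y`. -/
theorem result (p : ℕ) [Fact p.Prime] (k : Type) [Field k] [CharP k p]
    (hk : ∀ c : k, ∃ m : ℕ, 0 < m ∧ c ^ p ^ m = c)
    (F : Type) [Field F] [Algebra k F] (n : ℕ) (x : Fin (n + 1) → F) (d : ℕ) (hd : 1 ≤ d)
    (K₀ : IntermediateField k F) (hX : Fibration k d x K₀) (a : ∀ P : LocalSubring F, Kap P)
    (ha : ∀ P ∈ PointsY x K₀ 0, a P ≠ 0) (hfin : {P | P ∈ PointsY x K₀ 0 ∧ a P ≠ 1}.Finite)
    (hN : ∏ᶠ (P : LocalSubring F) (_ : P ∈ PointsY x K₀ 0), norm K₀ P (a P) = 1) :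
    ∃ N : ℕ, 0 < N ∧ ∃ s : List (Σ S : LocalSubring F, Kap S × Kap S),
      (∀ q ∈ s, q.1 ∈ PointsY x K₀ 1 ∧ q.2.1 ≠ 0 ∧ q.2.2 ≠ 0) ∧
      ∀ P ∈ PointsY x K₀ 0, a P ^ N = (s.map fun q => boundary q P).prod := by
  obtain ⟨N, hN0, s, hs, h⟩ := Pool.Agent.Lib.MP_b197b4_ntBW.bloch_main p k hk F n (d + 1) x K₀
    (by omega) (fib_of hX) a (fun P hP hH => ha P ⟨hP, hH⟩) hfin hN
  refine ⟨N, hN0, s, fun q hq => ?_, fun P hP => h P hP.1 hP.2⟩
  obtain ⟨h1, h2, h3⟩ := hs q hq
  exact ⟨⟨h1, h2⟩, h3⟩

end Pool.Agent.Results.MP_b197b4_nt.BlochKernel
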