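import Mathlib
import Pool.Agent.Lib.MP_b197b4_ntZ.Fin

/-!
# MP_b197b4_nt, Q1 in the degree `2 d - 1` for all varieties of characteristic `p`

`X` is a regular projective variety of dimension `d ≥ 2` over a finite field (more generally over a
field which is algebraic over a finite field), with function field `F`. The theorem says that Bloch's
higher Chow group

  `CH ^ d (X, 1) = H ^ (2 d - 1) (X, ℤ(d))`

is torsion. It is the homology of Bloch's cycle complex `z ^ d (X, •)`: the group `z ^ d (X, m)` is
generated by the closed subvarieties `W` of `X × Δ ^ m` of codimension `d`, that is of dimension `m`,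
which meet all the faces properly, and the boundary is the alternating sum of the intersections with
the faces of codimension one.

`X` is given by homogeneous coordinates `x 0, ..., x n`, nonzero elements of `F`: its affine charts are
the rings `k[x j / x i]`. A point of the scheme `X` is given by its local ring, a local subring of
`F`. A closed subvariety of `X × Δ ^ m` is given by its generic point: a point `O` of `X` and a prime
ideal of `κ(O)[t_0, ..., t_m]` which contains `t_0 + ... + t_m - 1`.
-/

set_option autoImplicit false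

namespace Pool.Agent.Results.MP_b197b4_nt.KOneVarieties

open IsLocalRing MvPolynomial

section Varieties

variable {F : Type} [Field F]

/-- The affine chart `x i ≠ 0`: the `k`-algebra generated by the quotients `x j / x i`. -/
def chart (k : Type) {F : Type} [Field k] [Field F] [Algebra k F] {n : ℕ} (x : Fin (n + 1) → F)
    (i : Fin (n + 1)) : Subalgebra k F :=
  Algebra.adjoin k (Set.range fun j => x j / x i)

/-- `x 0, ..., x n` are homogeneous coordinates of a regular projective variety of dimension `d` over
`k` with function field `F`: the charts are regular rings with the field of fractions `F`, and all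
their maximal ideals have the height `d`. -/
structure Variety (k : Type) {F : Type} [Field k] [Field F] [Algebra k F] {n : ℕ} (d : ℕ)
    (x : Fin (n + 1) → F) : Prop where
  ne : ∀ i, x i ≠ 0
  frac : ∀ i, IsFractionRing (chart k x i) F
  regular : ∀ i, IsRegularRing (chart k x i)
  height : ∀ i, ∀ m : Ideal (chart k x i), m.IsMaximal → m.height = d

/-- The points of dimension `e` of the variety: `O` is the local ring of a chart `A` at a prime ideal
`P` such that `A / P` has the dimension `e`. -/
def Points (k : Type) {F : Type} [Field k] [Field F] [Algebra k F] {n : ℕ}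
    (x : Fin (n + 1) → F) (e : ℕ) : Set (LocalSubring F) :=
  {O | ∃ (i : Fin (n + 1)) (P : Ideal (chart k x i).toSubring) (_ : P.IsPrime),
    ringKrullDim ((chart k x i).toSubring ⧸ P) = e ∧ O = LocalSubring.ofPrime _ P}

/-- The residue field of the point `O`. -/
abbrev Kap (O : LocalSubring F) : Type := ResidueField O.toSubring

/-- The point `O` is in the closure of the point `S`. -/
def InClosure (O S : LocalSubring F) : Prop := O.toSubring ≤ S.toSubring

/-- The homomorphism from the local ring of the point `O` to the residue field of the point `S`, if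
`O` is in the closure of `S`. -/
noncomputable def reduction {O S : LocalSubring F} (h : InClosure O S) : O.toSubring →+* Kap S :=
  (residue S.toSubring).comp (Subring.inclusion h)

end Varieties

section Algebra

/-- The polynomials in the coordinates `t_0, ..., t_m` with coefficients in `R`. -/
abbrev Pol (m : ℕ) (R : Type) [CommRing R] : Type := MvPolynomial (Fin (m + 1)) R

/-- `I` is the ideal of a closed subvariety of dimension `r` of the simplex
`Δ ^ m = {t_0 + ... + t_m = 1}` over the field `R`. -/
def IsFibre {m : ℕ} {R : Type} [CommRing R] (r : ℕ) (I : Ideal (Pol m R)) : Prop :=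
  I.IsPrime ∧ ∑ i, X i - 1 ∈ I ∧ ringKrullDim (Pol m R ⧸ I) = r

/-- The subscheme with the ideal `I` is contained in the subscheme with the ideal `J`. -/
def Inside {m : ℕ} {R : Type} [CommRing R] (I J : Ideal (Pol m R)) : Prop := J ≤ I

open Classical in
/-- The inverse image in `R[t_0, ..., t_m]` of the ideal `I` of `R'[t_0, ..., t_m]`, if the condition
`c`, under which the homomorphism `f` from `R` to `R'` is defined, holds. Otherwise the unit ideal. -/
noncomputable def pullback {m : ℕ} {R R' : Type} [CommRing R] [CommRing R'] (c : Prop)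
    (f : c → (R →+* R')) (I : Ideal (Pol m R')) : Ideal (Pol m R) :=
  if h : c then I.comap (MvPolynomial.map (f h)) else ⊤

open Classical in
/-- The length of the local ring of `A / J` at the prime ideal `p`. -/
noncomputable def lengthAt {A : Type} [CommRing A] (p J : Ideal A) : ℕ∞ :=
  if _h : p.IsPrime then
    Module.length (Localization.AtPrime p)
      (Localization.AtPrime p ⧸ J.map (algebraMap A (Localization.AtPrime p))) else 0

/-- The length of the local ring of `R[t_0, ..., t_m] / (J, t_i)` at the prime ideal `p`. -/
noncomputable def lengthFace {m : ℕ} {R : Type} [CommRing R] (p J : Ideal (Pol m R))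
    (i : Fin (m + 1)) : ℕ∞ :=
  lengthAt p (J ⊔ Ideal.span {X i})

/-- The face map `R[t_0, ..., t_(m+1)] → R[t_0, ..., t_m]`: `t_i` goes to `0` and the other
coordinates to `t_0, ..., t_m`, in their order. -/
noncomputable def faceMap {m : ℕ} (R : Type) [CommRing R] (i : Fin (m + 2)) :
    Pol (m + 1) R →ₐ[R] Pol m R :=
  aeval (i.insertNth (α := fun _ => Pol m R) 0 X)

/-- The ideal in `R[t_0, ..., t_(m+1)]` of the subvariety with the ideal `I` of the face `t_i = 0`. -/
noncomputable def faceIdeal {m : ℕ} {R : Type} [CommRing R] (i : Fin (m + 2))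
    (I : Ideal (Pol m R)) : Ideal (Pol (m + 1) R) :=
  I.comap (faceMap R i)

/-- The subvariety with the ideal `J` is contained in the face `t_i = 0` for all `i` in `I`. -/
def OnFace {m : ℕ} {R : Type} [CommRing R] (I : Finset (Fin (m + 1))) (J : Ideal (Pol m R)) :
    Prop :=
  ∀ i ∈ I, X i ∈ J

end Algebra

section Cycles

/-- A closed subvariety of `X × Δ ^ m`: the generic point `O` of the closure of its image in `X`, and
a prime ideal of `κ(O)[t_0, ..., t_m]`, the ideal of its fibre over `O`. -/
abbrev Sub (F : Type) [Field F] (m : ℕ) : Type := Σ O : LocalSubring F, Ideal (Pol m (Kap O))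

variable {F : Type} [Field F]

/-- The ideal of the subvariety `W` in `O[t_0, ..., t_m]`, where `O` is the local ring of a point: the
polynomials whose residue classes are in the prime ideal of `W`. It is the unit ideal if the point
is not in the closure of the image of `W`. -/
noncomputable def idealOf {m : ℕ} (O : LocalSubring F) (W : Sub F m) : Ideal (Pol m O.toSubring) :=
  pullback (InClosure O W.1) reduction W.2

/-- The subvariety `V` is contained in the subvariety `W`. -/
def Contained {m : ℕ} (V W : Sub F m) : Prop := Inside (idealOf V.1 V) (idealOf V.1 W)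

/-- The multiplicity of `V` in the intersection of `W` and the face `t_i = 0`: the length of
`O_V / (I_W, t_i)`, where `O_V` is the local ring at `V`. -/
noncomputable def multiplicity {m : ℕ} (W V : Sub F m) (i : Fin (m + 1)) : ℕ∞ :=
  lengthFace (idealOf V.1 V) (idealOf V.1 W) i

/-- The subvariety `V` of `X × Δ ^ m`, as a subvariety of the face `t_i = 0` of
`X × Δ ^ (m + 1)`. -/
noncomputable def face {m : ℕ} (i : Fin (m + 2)) (V : Sub F m) : Sub F (m + 1) :=
  ⟨V.1, faceIdeal i V.2⟩

/-- The coefficient of `V` in the boundary of `W`. -/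
noncomputable def coeff {m : ℕ} (W : Sub F (m + 1)) (V : Sub F m) : ℤ :=
  ∑ i : Fin (m + 2), (-1) ^ (i : ℕ) * ((multiplicity W (face i V) i).toNat : ℤ)

/-- The coefficient of `V` in the boundary of the cycle `y`. -/
noncomputable def boundary {m : ℕ} (y : Sub F (m + 1) →₀ ℤ) (V : Sub F m) : ℤ :=
  y.sum fun W c => c * coeff W V

variable (k : Type) [Field k] [Algebra k F] {n : ℕ}

/-- `W` is a closed subvariety of `X × Δ ^ m` of dimension `e`: `e` is the sum of the dimension `s` of
the closure of its image in `X` and of the dimension `r` of its generic fibre. -/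
def IsSub (x : Fin (n + 1) → F) {m : ℕ} (e : ℕ) (W : Sub F m) : Prop :=
  ∃ s r : ℕ, W.1 ∈ Points k x s ∧ IsFibre r W.2 ∧ s + r = e

/-- `W`, of dimension `e`, meets all the faces of `X × Δ ^ m` properly: every subvariety `V` of the
intersection of `W` and a face of codimension `c` has dimension at most `e - c`. -/
def Proper (x : Fin (n + 1) → F) {m : ℕ} (e : ℕ) (W : Sub F m) : Prop :=
  ∀ (I : Finset (Fin (m + 1))) (V : Sub F m) (r : ℕ), IsSub k x r V →
    Contained V W → OnFace I V.2 → r + I.card ≤ e

/-- `z` is in Bloch's group `z ^ d (X, m)`: a finite sum of closed subvarieties of `X × Δ ^ m` of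
dimension `m` which meet all the faces properly. -/
def IsCycle (x : Fin (n + 1) → F) {m : ℕ} (z : Sub F m →₀ ℤ) : Prop :=
  ∀ W ∈ z.support, IsSub k x m W ∧ Proper k x m W

end Cycles

section Compare

open Pool.Agent.Lib

variable {k : Type} {F : Type} [Field k] [Field F] [Algebra k F] {n : ℕ} {x : Fin (n + 1) → F}

theorem var_of {d : ℕ} (h : Variety k d x) : MP_b197b4_ntA.Var k d x where
  ne := h.ne
  frac := h.frac
  regular := h.regular
  height := h.height

theorem isSub_iff {m e : ℕ} (W : Sub F m) :
    MP_b197b4_ntZ.IsSub k x e W ↔ IsSub k x e W := by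
  constructor
  · rintro ⟨s, r, h1, h2, h3, h4, h5⟩
    exact ⟨s, r, h1, ⟨h2, h3, h4⟩, h5⟩
  · rintro ⟨s, r, h1, ⟨h2, h3, h4⟩, h5⟩
    exact ⟨s, r, h1, h2, h3, h4, h5⟩

theorem contained_iff {m : ℕ} (V W : Sub F m) :
    MP_b197b4_ntZ.idl V.1 W ≤ MP_b197b4_ntZ.idl V.1 V ↔ Contained V W := Iff.rfl

theorem proper_iff {m e : ℕ} (W : Sub F m) :
    MP_b197b4_ntZ.Proper k x e W ↔ Proper k x e W := by
  constructor
  · intro h I V r h1 h2 h3
    exact h I V r ((isSub_iff V).2 h1) ((contained_iff V W).2 h2) h3
  · intro h I V r h1 h2 h3
    exact h I V r ((isSub_iff V).1 h1) ((contained_iff V W).1 h2) h3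

theorem coeff_eq {m : ℕ} (W : Sub F (m + 1)) (V : Sub F m) :
    MP_b197b4_ntZ.bdy W V = coeff W V := rfl

theorem boundary_eq {m : ℕ} (y : Sub F (m + 1) →₀ ℤ) (V : Sub F m) :
    MP_b197b4_ntZ.bdry y V = boundary y V := rfl

theorem isCycle_iff {m : ℕ} (z : Sub F m →₀ ℤ) :
    MP_b197b4_ntZ.IsCyc k x z ↔ IsCycle k x z :=
  forall₂_congr fun W _ => and_congr (isSub_iff W) (proper_iff W)

end Compare

/-- **Theorem.** Let `X` be a regular projective variety of dimension `d ≥ 2` over a field `k` which
is algebraic over a finite field. Then `CH ^ d (X, 1)` is torsion: for every cycle `z` in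
`z ^ d (X, 1)` with boundary zero a multiple `N z`, `N > 0`, is the boundary of a cycle `y` in
`z ^ d (X, 2)`. -/
theorem result (p : ℕ) [Fact p.Prime] (k : Type) [Field k] [CharP k p]
    (hk : ∀ c : k, ∃ m : ℕ, 0 < m ∧ c ^ p ^ m = c)
    (F : Type) [Field F] [Algebra k F] (n : ℕ) (x : Fin (n + 1) → F) (d : ℕ) (hd : 2 ≤ d)
    (hX : Variety k d x) (z : Sub F 1 →₀ ℤ) (hz : IsCycle k x z)
    (hb : ∀ V : Sub F 0, IsSub k x 0 V → boundary z V = 0) :
    ∃ N : ℕ, 0 < N ∧ ∃ y : Sub F 2 →₀ ℤ, IsCycle k x y ∧
      ∀ V : Sub F 1, IsSub k x 1 V → boundary y V = N * z V := by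
  obtain ⟨N, hN, y, hy, h⟩ := Pool.Agent.Lib.MP_b197b4_ntZ.goal p k hk F n x d hd (var_of hX) z
    ((isCycle_iff z).2 hz) fun V hV => hb V ((isSub_iff V).1 hV)
  exact ⟨N, hN, y, (isCycle_iff y).1 hy, fun V hV => h V ((isSub_iff V).2 hV)⟩

end Pool.Agent.Results.MP_b197b4_nt.KOneVarieties
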