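import Pool.Agent.Lib.MP_b197b4_ntV3.F3

/-!
# Milnor K-theory in characteristic p vanishes rationally in large degrees

Let `S` be a field of characteristic `p > 0`, or a semilocal domain of characteristic `p` which contains infinitely
many elements algebraic over `F_p`, of transcendence degree at most `n` over `F_p`, and let `R` be a quotient ring of `S`
(for example `R = S`).  If `m` is at least `2^n + 2` then every element of the Milnor K-group `K_m^M(R)` is
torsion, that is `K_m^M(R) ⊗ Q = 0`.
-/

set_option autoImplicit false

namespace Pool.Agent.Results.MP_b197b4_nt.MilnorVanishing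

open Pool.Agent.MP_b197b4_ntLV

universe u v

/-- `K_m^M(R)` is a torsion group for every quotient ring `R` of a field or of a semilocal domain `S` (containing
infinitely many elements algebraic over `F_p`) of characteristic `p` and of transcendence degree at most `n` over the
prime field, if `m ≥ 2^n + 2`. -/
theorem result (p n m : ℕ) [Fact p.Prime] (S : Type u) [CommRing S] [IsDomain S] [Algebra (ZMod p) S]
    (hM : Finite (MaximalSpectrum S)) (hS : IsField S ∨ {a : S | IsAlgebraic (ZMod p) a}.Infinite)
    (hn : Algebra.trdeg (ZMod p) S ≤ n) (hm : 2 ^ n + 2 ≤ m)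
    (R : Type v) [CommRing R] (f : S →+* R) (hf : Function.Surjective f) (x : MilnorK R m) :
    ∃ N : ℕ, 0 < N ∧ N • x = 0 :=
  Pool.Agent.MP_b197b4_ntV3.F3_main p S hM hS hn hm f hf x

end Pool.Agent.Results.MP_b197b4_nt.MilnorVanishing
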