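import Pool.Agent.Lib.MP_b197b4_nt.Gap

/-!
# MP_b197b4_nt: a gap for the permutations of the factors of the powers, and Q1 for products

`X_1, .., X_r` are smooth proper geometrically connected varieties over the field with `q`
elements, `Y` is their product, of dimension `D`. For `X = X_j`, let `d` be the dimension, `N` the
sum of the Betti numbers and `T_k` the dimension of the span of the graphs of the `k!` permutations
of the factors of `X ^ k` in `CH ^ (k d) (X ^ k × X ^ k) ⊗ ℚ`.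

Either for some `X = X_j` the number `T_k` is at least
`(N + 2) ^ (2 k - 2 N - 2) / (k + 1) ^ ((N + 2) ^ 2)` for **every** `k ≥ 1`, or for every `X = X_j`
the motive of `X` is finite-dimensional (Kimura), `N ^ (2 k) / (k + 1) ^ (N ^ 2) ≤ T_k ≤ N ^ (2 k)`
for every `k ≥ 1`, and `H ^ i (Y_et, Z(D))` is finitely generated for `i ≤ 2 D` and finite for
`i < 2 D`, and `H ^ i (Y_et, Z(D + m))` is finite for `m ≥ 1` and `i ≤ 2 (D + m)`.
-/

namespace Pool.Agent.Results.MP_b197b4_nt.PermutationGap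

open MPb197b4

theorem result {q r : ℕ} (hq : 2 ≤ q) (X : Fin r → Variety q) (W : ∀ j, Powers (X j))
    (C : Cohomology X) :
    (∃ j, ∀ k : ℕ, 1 ≤ k → ((X j).betti + 2) ^ (2 * k) ≤ ((W j).pow k).T *
      (((X j).betti + 2) ^ (2 * (X j).betti + 2) * (k + 1) ^ (((X j).betti + 2) ^ 2))) ∨
    ((∀ j, (W j).Kimura ∧ ∀ k : ℕ, 1 ≤ k → ((W j).pow k).T ≤ (X j).betti ^ (2 * k) ∧
        (X j).betti ^ (2 * k) ≤ ((W j).pow k).T * (k + 1) ^ ((X j).betti ^ 2)) ∧
      (∀ i : ℤ, i ≤ 2 * ∑ j, ((X j).d : ℤ) → AddGroup.FG (C.A 0 i)) ∧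
      (∀ i : ℤ, i < 2 * ∑ j, ((X j).d : ℤ) → Finite (C.A 0 i)) ∧
      ∀ m : ℕ, 1 ≤ m → ∀ i : ℤ, i ≤ 2 * (∑ j, ((X j).d : ℤ) + (m : ℤ)) → Finite (C.A m i)) :=
  permutation_gap hq X W C

end Pool.Agent.Results.MP_b197b4_nt.PermutationGap
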